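import Pool.Agent.Lib.MP_9f0b3e_al.Final
import Pool.Agent.Lib.MP_9f0b3e_al.Re

/-!
# Deciding whether a finite hyperfield is a quotient of an infinite field

The question in the words of the problem: hyperfields, quotient hyperfields `K/G`, isomorphisms and
full tables are defined below.
-/

set_option autoImplicit false

universe u v w

namespace Pool.Agent.Results.MP_9f0b3e_al.DecideQuotient

/-- A hyperfield. `CommGroupWithZero H` says that `H` has a commutative multiplication and an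
element `0` with `0 * x = 0`, and that `H \ {0}` is an abelian group. -/
class Hyperfield (H : Type u) extends CommGroupWithZero H where
  /-- the hyperaddition -/
  hadd : H → H → Set H
  hadd_nonempty : ∀ x y : H, (hadd x y).Nonempty
  hadd_comm : ∀ x y : H, hadd x y = hadd y x
  hadd_assoc : ∀ x y z : H, (⋃ a ∈ hadd x y, hadd a z) = ⋃ b ∈ hadd y z, hadd x b
  hadd_zero : ∀ x : H, hadd x 0 = {x}
  existsUnique_neg : ∀ x : H, ∃! y : H, (0 : H) ∈ hadd x y
  reversible : ∀ x y z y' : H, x ∈ hadd y z → (0 : H) ∈ hadd y y' → z ∈ hadd x y'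
  mul_hadd : ∀ a x y : H, (fun z => a * z) '' hadd x y = hadd (a * x) (a * y)

export Hyperfield (hadd)

/-- An isomorphism of hyperfields exists: a bijection that preserves the multiplication and the
hyperaddition. -/
def Isomorphic (H : Type u) (H' : Type v) [Hyperfield H] [Hyperfield H'] : Prop :=
  ∃ e : H ≃ H', (∀ x y, e (x * y) = e x * e y) ∧ ∀ x y, e '' hadd x y = hadd (e x) (e y)

/-- The set `{0} ∪ Kˣ/G`. -/
def QuotientHyperfield (K : Type v) [Field K] (G : Subgroup Kˣ) : Type v := WithZero (Kˣ ⧸ G)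

section quotient

variable {K : Type v} [Field K] (G : Subgroup Kˣ)

/-- The multiplication of `{0} ∪ Kˣ/G` is the one induced from `K`. -/
noncomputable instance : CommGroupWithZero (QuotientHyperfield K G) :=
  inferInstanceAs (CommGroupWithZero (WithZero (Kˣ ⧸ G)))

open Classical in
/-- The class `[a]` of an element `a` of `K`: `[0] = 0`, and `[a] = aG` for `a ≠ 0`. -/
noncomputable def cls (a : K) : QuotientHyperfield K G :=
  if h : a = 0 then 0 else (((Units.mk0 a h : Kˣ) : Kˣ ⧸ G) : WithZero (Kˣ ⧸ G))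

theorem cls_zero : cls G 0 = 0 := by simp [cls]

theorem cls_of_ne {a : K} (h : a ≠ 0) :
    cls G a = (((Units.mk0 a h : Kˣ) : Kˣ ⧸ G) : WithZero (Kˣ ⧸ G)) :=
  dif_neg h

theorem cls_unit (g : Kˣ) : cls G (g : K) = ((g : Kˣ ⧸ G) : WithZero (Kˣ ⧸ G)) := by
  rw [cls_of_ne G g.ne_zero]
  congr 2
  exact Units.ext rfl

theorem cls_ne_zero {a : K} (h : a ≠ 0) : cls G a ≠ 0 := by
  rw [cls_of_ne G h]
  exact WithZero.coe_ne_zero

theorem cls_eq_zero_iff {a : K} : cls G a = 0 ↔ a = 0 := by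
  constructor
  · intro h
    by_contra h'
    exact cls_ne_zero G h' h
  · rintro rfl
    exact cls_zero G

theorem cls_one : cls G 1 = 1 := by
  have := cls_unit G 1
  rw [Units.val_one] at this
  rw [this]
  rfl

theorem cls_mul (a b : K) : cls G (a * b) = cls G a * cls G b := by
  by_cases ha : a = 0
  · subst ha
    rw [zero_mul, cls_zero, zero_mul]
  by_cases hb : b = 0
  · subst hb
    rw [mul_zero, cls_zero, mul_zero]
  lift a to Kˣ using isUnit_iff_ne_zero.mpr ha
  lift b to Kˣ using isUnit_iff_ne_zero.mpr hb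
  rw [← Units.val_mul, cls_unit, cls_unit, cls_unit]
  rfl

theorem cls_surjective : Function.Surjective (cls G) := by
  intro y
  by_cases hy : y = 0
  · exact ⟨0, by rw [cls_zero, hy]⟩
  · obtain ⟨q, rfl⟩ := WithZero.ne_zero_iff_exists.mp hy
    obtain ⟨g, rfl⟩ := QuotientGroup.mk_surjective q
    exact ⟨g, cls_unit G g⟩

/-- `[a] = [b]` exactly when `a ∈ bG`. -/
theorem cls_eq_iff (a b : K) : cls G a = cls G b ↔ ∃ g ∈ G, a = b * (g : K) := by
  by_cases ha : a = 0
  · subst ha
    rw [cls_zero, eq_comm, cls_eq_zero_iff]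
    constructor
    · rintro rfl
      exact ⟨1, G.one_mem, by simp⟩
    · rintro ⟨g, -, h⟩
      rcases mul_eq_zero.mp h.symm with h | h
      · exact h
      · exact absurd h g.ne_zero
  by_cases hb : b = 0
  · subst hb
    rw [cls_zero, cls_eq_zero_iff]
    constructor
    · rintro rfl
      exact ⟨1, G.one_mem, by simp⟩
    · rintro ⟨g, -, h⟩
      rw [h, zero_mul]
  lift a to Kˣ using isUnit_iff_ne_zero.mpr ha
  lift b to Kˣ using isUnit_iff_ne_zero.mpr hb
  rw [cls_unit, cls_unit]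
  constructor
  · intro h
    have h' : (a : Kˣ ⧸ G) = (b : Kˣ ⧸ G) := WithZero.coe_inj.mp h
    rw [eq_comm, QuotientGroup.eq] at h'
    exact ⟨b⁻¹ * a, h', by simp⟩
  · rintro ⟨g, hg, h⟩
    have h' : a = b * g := Units.ext (by simpa using h)
    rw [h']
    congr 1
    rw [eq_comm, QuotientGroup.eq]
    simpa using hg

theorem cls_neg_eq {a b : K} (h : cls G a = cls G b) : cls G (-a) = cls G (-b) := by
  rw [neg_eq_neg_one_mul a, neg_eq_neg_one_mul b, cls_mul, cls_mul, h]

/-- `[a] + [b] = {[a' + b'] : a' ∈ aG, b' ∈ bG}`, and `a' ∈ aG` means `[a'] = [a]`. -/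
def quotAdd (x y : QuotientHyperfield K G) : Set (QuotientHyperfield K G) :=
  {z | ∃ a b : K, cls G a = x ∧ cls G b = y ∧ z = cls G (a + b)}

theorem quotAdd_comm (x y : QuotientHyperfield K G) : quotAdd G x y = quotAdd G y x := by
  ext z
  constructor <;>
  · rintro ⟨a, b, ha, hb, rfl⟩
    exact ⟨b, a, hb, ha, by rw [add_comm]⟩

theorem quotAdd_assoc_left (x y z : QuotientHyperfield K G) :
    (⋃ s ∈ quotAdd G x y, quotAdd G s z) =
      {t | ∃ a b c : K, cls G a = x ∧ cls G b = y ∧ cls G c = z ∧ t = cls G (a + b + c)} := by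
  ext t
  simp only [Set.mem_iUnion, Set.mem_ofPred_eq]
  constructor
  · rintro ⟨s, ⟨a, b, ha, hb, rfl⟩, s', c, hs, hc, rfl⟩
    obtain ⟨g, hg, h⟩ := (cls_eq_iff G _ _).mp hs
    refine ⟨a * g, b * g, c, ?_, ?_, hc, ?_⟩
    · rw [← ha]
      exact (cls_eq_iff G _ _).mpr ⟨g, hg, rfl⟩
    · rw [← hb]
      exact (cls_eq_iff G _ _).mpr ⟨g, hg, rfl⟩
    · rw [h, add_mul]
  · rintro ⟨a, b, c, ha, hb, hc, rfl⟩
    exact ⟨cls G (a + b), ⟨a, b, ha, hb, rfl⟩, a + b, c, rfl, hc, rfl⟩

theorem quotAdd_zero_of {x y : QuotientHyperfield K G} (h : (0 : QuotientHyperfield K G) ∈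
    quotAdd G x y) {a : K} (ha : cls G a = x) : y = cls G (-a) := by
  obtain ⟨a', b', ha', hb', h0⟩ := h
  have h1 : a' + b' = 0 := (cls_eq_zero_iff G).mp h0.symm
  rw [← hb', eq_neg_of_add_eq_zero_right h1]
  exact cls_neg_eq G (ha'.trans ha.symm)

/-- The quotient hyperfield `K/G`. -/
noncomputable instance : Hyperfield (QuotientHyperfield K G) where
  hadd := quotAdd G
  hadd_nonempty := by
    intro x y
    obtain ⟨a, ha⟩ := cls_surjective G x
    obtain ⟨b, hb⟩ := cls_surjective G y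
    exact ⟨_, a, b, ha, hb, rfl⟩
  hadd_comm := quotAdd_comm G
  hadd_assoc := by
    intro x y z
    have h2 : (⋃ b ∈ quotAdd G y z, quotAdd G x b) = ⋃ b ∈ quotAdd G y z, quotAdd G b x :=
      Set.iUnion_congr fun b => Set.iUnion_congr fun _ => quotAdd_comm G x b
    rw [h2, quotAdd_assoc_left, quotAdd_assoc_left]
    ext t
    constructor
    · rintro ⟨a, b, c, ha, hb, hc, rfl⟩
      exact ⟨b, c, a, hb, hc, ha, by congr 1; ring⟩
    · rintro ⟨b, c, a, hb, hc, ha, rfl⟩
      exact ⟨a, b, c, ha, hb, hc, by congr 1; ring⟩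
  hadd_zero := by
    intro x
    ext z
    constructor
    · rintro ⟨a, b, rfl, hb, rfl⟩
      rw [(cls_eq_zero_iff G).mp hb, add_zero]
      rfl
    · rintro rfl
      obtain ⟨a, ha⟩ := cls_surjective G z
      exact ⟨a, 0, ha, cls_zero G, by rw [add_zero, ha]⟩
  existsUnique_neg := by
    intro x
    obtain ⟨a, ha⟩ := cls_surjective G x
    refine ⟨cls G (-a), ⟨a, -a, ha, rfl, by rw [add_neg_cancel, cls_zero]⟩, ?_⟩
    intro y hy
    exact quotAdd_zero_of G hy ha
  reversible := by
    rintro x y z y' ⟨b, c, hb, hc, rfl⟩ h0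
    have h1 := quotAdd_zero_of G h0 hb
    exact ⟨b + c, -b, rfl, h1.symm, by rw [← hc]; congr 1; ring⟩
  mul_hadd := by
    intro a x y
    obtain ⟨α, rfl⟩ := cls_surjective G a
    by_cases hα : α = 0
    · subst hα
      ext z
      constructor
      · rintro ⟨t, ⟨p, q, rfl, rfl, rfl⟩, rfl⟩
        exact ⟨0, 0, by rw [cls_zero, zero_mul], by rw [cls_zero, zero_mul],
          by simp [cls_zero]⟩
      · rintro ⟨p, q, hp, hq, rfl⟩
        rw [cls_zero, zero_mul] at hp hq
        obtain ⟨x', hx'⟩ := cls_surjective G x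
        obtain ⟨y', hy'⟩ := cls_surjective G y
        refine ⟨cls G (x' + y'), ⟨x', y', hx', hy', rfl⟩, ?_⟩
        simp [(cls_eq_zero_iff G).mp hp, (cls_eq_zero_iff G).mp hq, cls_zero]
    · ext z
      constructor
      · rintro ⟨t, ⟨p, q, rfl, rfl, rfl⟩, rfl⟩
        exact ⟨α * p, α * q, cls_mul G _ _, cls_mul G _ _, by
          change cls G α * cls G (p + q) = _
          rw [← cls_mul, mul_add]⟩
      · rintro ⟨p, q, hp, hq, rfl⟩
        have hc : cls G α ≠ 0 := cls_ne_zero G hα
        refine ⟨cls G (α⁻¹ * p + α⁻¹ * q), ⟨α⁻¹ * p, α⁻¹ * q, ?_, ?_, rfl⟩, ?_⟩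
        · apply mul_left_cancel₀ hc
          rw [← hp, ← cls_mul, mul_inv_cancel_left₀ hα]
        · apply mul_left_cancel₀ hc
          rw [← hq, ← cls_mul, mul_inv_cancel_left₀ hα]
        · change cls G α * _ = _
          rw [← cls_mul, ← mul_add, mul_inv_cancel_left₀ hα]

theorem mem_hadd (x y z : QuotientHyperfield K G) :
    z ∈ hadd x y ↔ ∃ a b : K, cls G a = x ∧ cls G b = y ∧ cls G (a + b) = z := by
  constructor
  · rintro ⟨a, b, ha, hb, h⟩
    exact ⟨a, b, ha, hb, h.symm⟩
  · rintro ⟨a, b, ha, hb, h⟩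
    exact ⟨a, b, ha, hb, h.symm⟩

/-- The class map as a homomorphism. -/
noncomputable def clsHom : K →*₀ QuotientHyperfield K G where
  toFun := cls G
  map_zero' := cls_zero G
  map_one' := cls_one G
  map_mul' := cls_mul G

end quotient

/-- Input of the algorithm: the number of elements, the multiplication table and the
hyperaddition table. -/
abbrev Table : Type := ℕ × List (List ℕ) × List (List (List ℕ))

open Classical in
/-- The full tables of a finite hyperfield `H` whose elements are numbered `0, ..., n - 1` by `e`: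
entry `(i, j)` of the first table is the number of the product of the elements with numbers `i` and
`j`, entry `(i, j)` of the second one is the increasing list of the numbers of the elements of
their hypersum. -/
noncomputable def tableOf {H : Type u} [Hyperfield H] {n : ℕ} (e : H ≃ Fin n) : Table :=
  (n, List.ofFn fun i : Fin n => List.ofFn fun j : Fin n => (e (e.symm i * e.symm j) : ℕ),
    List.ofFn fun i : Fin n => List.ofFn fun j : Fin n =>
      ((List.finRange n).filter fun k => e.symm k ∈ hadd (e.symm i) (e.symm j)).map Fin.val)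

/-- `H` is a quotient of the field `K`. -/
def IsQuotientOf (H : Type u) [Hyperfield H] (K : Type v) [Field K] : Prop :=
  ∃ G : Subgroup Kˣ, Isomorphic H (QuotientHyperfield K G)

/-! ### Quotients and characters -/

/-- `χ : K → H` presents `H` as a quotient of `K`. -/
structure Pres {H : Type u} [Hyperfield H] {K : Type v} [Field K] (χ : K →*₀ H) : Prop where
  surj : Function.Surjective χ
  add : ∀ x y z : H, z ∈ hadd x y ↔ ∃ a b : K, χ a = x ∧ χ b = y ∧ χ (a + b) = z

theorem pres_clsHom {K : Type v} [Field K] (G : Subgroup Kˣ) : Pres (clsHom G) :=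
  ⟨cls_surjective G, mem_hadd G⟩

theorem exists_pres {H : Type u} [Hyperfield H] {K : Type v} [Field K] (h : IsQuotientOf H K) :
    ∃ χ : K →*₀ H, Pres χ := by
  obtain ⟨G, e, hm, ha⟩ := h
  have hm' : ∀ x y, e.symm (x * y) = e.symm x * e.symm y := by
    intro x y
    apply e.injective
    rw [hm, e.apply_symm_apply, e.apply_symm_apply, e.apply_symm_apply]
  have h0 : e.symm 0 = 0 := by
    have := hm' 0 (e 0)
    rw [zero_mul, e.symm_apply_apply, mul_zero] at this
    exact this
  have h1 : e.symm 1 = 1 := by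
    have := hm' 1 (e 1)
    rw [one_mul, e.symm_apply_apply, mul_one] at this
    exact this.symm
  refine ⟨{ toFun := fun a => e.symm (cls G a)
            map_zero' := by rw [cls_zero, h0]
            map_one' := by rw [cls_one, h1]
            map_mul' := fun a b => by rw [cls_mul, hm'] }, ?_, ?_⟩
  · exact e.symm.surjective.comp (cls_surjective G)
  · intro x y z
    change _ ↔ ∃ a b : K, e.symm (cls G a) = x ∧ e.symm (cls G b) = y ∧ e.symm (cls G (a + b)) = z
    have h2 : z ∈ hadd x y ↔ e z ∈ hadd (e x) (e y) := by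
      rw [← ha, e.injective.mem_set_image]
    rw [h2, mem_hadd]
    simp only [Equiv.symm_apply_eq]

theorem isQuotientOf_of_pres {H : Type u} [Hyperfield H] {K : Type v} [Field K] {χ : K →*₀ H}
    (h : Pres χ) : IsQuotientOf H K := by
  let G : Subgroup Kˣ := (Units.map (χ : K →* H)).ker
  have hG : ∀ g : Kˣ, g ∈ G ↔ χ (g : K) = 1 := by
    intro g
    rw [MonoidHom.mem_ker, Units.ext_iff]
    rfl
  have key : ∀ a b : K, χ a = χ b ↔ cls G a = cls G b := by
    intro a b
    rw [cls_eq_iff]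
    constructor
    · intro hab
      by_cases hb : b = 0
      · subst hb
        rw [map_zero, map_eq_zero] at hab
        exact ⟨1, G.one_mem, by rw [hab, zero_mul]⟩
      · have ha : a ≠ 0 := by
          rintro rfl
          rw [map_zero] at hab
          exact hb ((map_eq_zero χ).mp hab.symm)
        have hb' : χ b ≠ 0 := (map_ne_zero χ).mpr hb
        refine ⟨Units.mk0 (a / b) (div_ne_zero ha hb), ?_, ?_⟩
        · rw [hG, Units.val_mk0, map_div₀, hab, div_self hb']
        · rw [Units.val_mk0, mul_div_cancel₀ _ hb]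
    · rintro ⟨g, hg, rfl⟩
      rw [map_mul, (hG g).mp hg, mul_one]
  let s : H → K := Function.surjInv h.surj
  have hs : ∀ x, χ (s x) = x := Function.surjInv_eq h.surj
  let t : QuotientHyperfield K G → K := Function.surjInv (cls_surjective G)
  have ht : ∀ x, cls G (t x) = x := Function.surjInv_eq (cls_surjective G)
  let e : H ≃ QuotientHyperfield K G :=
    { toFun := fun x => cls G (s x)
      invFun := fun y => χ (t y)
      left_inv := fun x => ((key _ _).mpr (ht _)).trans (hs x)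
      right_inv := fun y => ((key _ _).mp (hs _)).trans (ht y) }
  have he : ∀ a, e (χ a) = cls G a := fun a => (key _ _).mp (hs _)
  refine ⟨G, e, ?_, ?_⟩
  · intro x y
    obtain ⟨a, rfl⟩ := h.surj x
    obtain ⟨b, rfl⟩ := h.surj y
    rw [← map_mul, he, he, he, cls_mul]
  · intro x y
    ext z
    obtain ⟨a, rfl⟩ := h.surj x
    obtain ⟨b, rfl⟩ := h.surj y
    rw [he, he, mem_hadd]
    constructor
    · rintro ⟨w, hw, rfl⟩
      obtain ⟨a', b', ha', hb', rfl⟩ := (h.add _ _ _).mp hw
      exact ⟨a', b', (key _ _).mp ha', (key _ _).mp hb', (he _).symm⟩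
    · rintro ⟨a', b', ha', hb', rfl⟩
      exact ⟨χ (a' + b'), (h.add _ _ _).mpr ⟨a', b', (key _ _).mpr ha', (key _ _).mpr hb', rfl⟩,
        he _⟩

theorem isQuotientOf_iff {H : Type u} [Hyperfield H] {K : Type v} [Field K] :
    IsQuotientOf H K ↔ ∃ χ : K →*₀ H, Pres χ :=
  ⟨exists_pres, fun ⟨_, h⟩ => isQuotientOf_of_pres h⟩

theorem Pres.comp {H : Type u} [Hyperfield H] {K : Type v} [Field K] {L : Type w} [Field L]
    {χ : K →*₀ H} (h : Pres χ) (φ : L →+* K) (hs : ∀ x : H, ∃ c : L, χ (φ c) = x)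
    (ha : ∀ x y z : H, z ∈ hadd x y →
      ∃ c d : L, χ (φ c) = x ∧ χ (φ d) = y ∧ χ (φ c + φ d) = z) :
    Pres (χ.comp φ.toMonoidWithZeroHom) := by
  have hc : ∀ c, χ.comp φ.toMonoidWithZeroHom c = χ (φ c) := fun c => rfl
  refine ⟨hs, ?_⟩
  intro x y z
  constructor
  · intro hz
    obtain ⟨c, d, h1, h2, h3⟩ := ha x y z hz
    exact ⟨c, d, h1, h2, by rw [hc, map_add, h3]⟩
  · rintro ⟨c, d, h1, h2, h3⟩
    rw [hc, map_add] at h3
    exact (h.add _ _ _).mpr ⟨φ c, φ d, h1, h2, h3⟩

/-- A finite quotient of an infinite field is a quotient of an infinite field in any universe. -/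
theorem exists_pres_small {H : Type u} [Hyperfield H] [Finite H] {K : Type v} [Field K]
    [Infinite K] {χ : K →*₀ H} (h : Pres χ) :
    ∃ (L : Type w) (_ : Field L) (_ : Infinite L) (χ' : L →*₀ H), Pres χ' := by
  classical
  have hw : ∀ t : H × H × H, ∃ a b : K, t.2.2 ∈ hadd t.1 t.2.1 →
      χ a = t.1 ∧ χ b = t.2.1 ∧ χ (a + b) = t.2.2 := by
    intro t
    by_cases ht : t.2.2 ∈ hadd t.1 t.2.1
    · obtain ⟨a, b, hab⟩ := (h.add _ _ _).mp ht
      exact ⟨a, b, fun _ => hab⟩
    · exact ⟨0, 0, fun h => absurd h ht⟩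
  choose a b hab using hw
  choose r hr using h.surj
  let S : Set K := Set.range (Infinite.natEmbedding K) ∪ Set.range a ∪ Set.range b ∪ Set.range r
  have hS : S.Countable :=
    (((Set.countable_range _).union (Set.countable_range _)).union (Set.countable_range _)).union
      (Set.countable_range _)
  let F := Subfield.closure S
  have hF : Countable F := Cardinal.mk_le_aleph0_iff.mp
    ((Subfield.cardinalMk_closure_le_max S).trans
      (max_le (Cardinal.le_aleph0_iff_set_countable.mpr hS) le_rfl))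
  have hSF : ∀ x ∈ S, x ∈ F := fun x hx => Subfield.subset_closure hx
  have hI : Infinite F := Infinite.of_injective
    (fun n : ℕ => (⟨Infinite.natEmbedding K n, hSF _ (by simp [S])⟩ : F)) (by
      intro m n hmn
      exact (Infinite.natEmbedding K).injective (congrArg Subtype.val hmn))
  have hsm : Small.{w} F := Countable.toSmall F
  let φ : Shrink.{w} F →+* K := F.subtype.comp (Shrink.ringEquiv F).toRingHom
  have hφ : ∀ x ∈ S, ∃ c : Shrink.{w} F, φ c = x := by
    intro x hx
    refine ⟨(Shrink.ringEquiv F).symm ⟨x, hSF x hx⟩, ?_⟩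
    change ((Shrink.ringEquiv F ((Shrink.ringEquiv F).symm ⟨x, hSF x hx⟩) : F) : K) = x
    rw [RingEquiv.apply_symm_apply]
  refine ⟨Shrink.{w} F, inferInstance, Infinite.of_injective _ (Shrink.ringEquiv F).symm.injective,
    χ.comp φ.toMonoidWithZeroHom, h.comp φ ?_ ?_⟩
  · intro x
    obtain ⟨c, hc⟩ := hφ (r x) (by simp [S])
    exact ⟨c, by rw [hc, hr]⟩
  · intro x y z hz
    obtain ⟨c, hc⟩ := hφ (a (x, y, z)) (by simp [S])
    obtain ⟨d, hd⟩ := hφ (b (x, y, z)) (by simp [S])
    refine ⟨c, d, ?_⟩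
    rw [hc, hd]
    exact hab (x, y, z) hz

/-! ### Tables -/

theorem getD_ofFn {α : Type*} {n : ℕ} (f : Fin n → α) (i : Fin n) (d : α) :
    (List.ofFn f).getD (i : ℕ) d = f i := by
  rw [List.getD_eq_getElem _ _ (by simp), List.getElem_ofFn]

theorem tableOf_mul {H : Type u} [Hyperfield H] {n : ℕ} (e : H ≃ Fin n) (x y : H) :
    ((tableOf e).2.1.getD (e x) []).getD (e y) 0 = (e (x * y) : ℕ) := by
  unfold tableOf
  simp only [getD_ofFn, Equiv.symm_apply_apply]

theorem tableOf_add {H : Type u} [Hyperfield H] {n : ℕ} (e : H ≃ Fin n) (x y z : H) :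
    (e z : ℕ) ∈ ((tableOf e).2.2.getD (e x) []).getD (e y) [] ↔ z ∈ hadd x y := by
  unfold tableOf
  simp only [getD_ofFn, Equiv.symm_apply_apply]
  rw [List.mem_map]
  constructor
  · rintro ⟨k, hk, hkz⟩
    have hk' : k = e z := Fin.ext hkz
    subst hk'
    simpa using hk
  · intro hz
    exact ⟨e z, by simpa using hz, rfl⟩

theorem real_tableOf_iff {H : Type u} [Hyperfield H] {n : ℕ} (e : H ≃ Fin n) :
    HypQ.CoRe.Real (tableOf e) ↔
      ∃ (K : Type) (_ : Field K) (_ : Infinite K) (χ : K →*₀ H), Pres χ := by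
  constructor
  · rintro ⟨K, inst, hinf, G, f, f1, f2, f3, f4, f5⟩
    have f1' : ∀ a, f a < n := f1
    let g : K → H := fun a => e.symm ⟨f a, f1' a⟩
    have hg : ∀ a, (e (g a) : ℕ) = f a := fun a => by simp [g]
    have hinj : ∀ x y : H, (e x : ℕ) = (e y : ℕ) → x = y := fun x y h => e.injective (Fin.ext h)
    have hs : Function.Surjective g := by
      intro x
      obtain ⟨a, ha⟩ := f2 (e x) (e x).2
      exact ⟨a, hinj _ _ (by rw [hg, ha])⟩
    have hm : ∀ a b, g (a * b) = g a * g b := by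
      intro a b
      apply hinj
      rw [hg, f4, ← hg a, ← hg b, tableOf_mul]
    have h0 : g 0 = 0 := by
      obtain ⟨a, ha⟩ := hs 0
      have := hm 0 a
      rw [zero_mul, ha, mul_zero] at this
      exact this
    have h1 : g 1 = 1 := by
      obtain ⟨a, ha⟩ := hs 1
      have := hm 1 a
      rw [one_mul, ha, mul_one] at this
      exact this.symm
    refine ⟨K, inst, hinf, { toFun := g, map_zero' := h0, map_one' := h1, map_mul' := hm }, hs, ?_⟩
    intro x y z
    obtain ⟨a, rfl⟩ := hs x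
    obtain ⟨b, rfl⟩ := hs y
    have h5 := f5 a b (e z) (e z).2
    rw [← hg a, ← hg b, tableOf_add] at h5
    rw [h5]
    change _ ↔ ∃ a' b' : K, g a' = g a ∧ g b' = g b ∧ g (a' + b') = z
    have hz : ∀ c : K, f c = (e z : ℕ) ↔ g c = z := fun c =>
      ⟨fun h => hinj _ _ (by rw [hg, h]), fun h => by rw [← hg, h]⟩
    have hab : ∀ c d : K, f c = f d ↔ g c = g d := fun c d =>
      ⟨fun h => hinj _ _ (by rw [hg, hg, h]), fun h => by rw [← hg, h, hg]⟩
    simp only [hg, hz, hab]
  · rintro ⟨K, inst, hinf, χ, hs, ha⟩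
    have hinj : ∀ x y : H, (e x : ℕ) = (e y : ℕ) ↔ x = y :=
      fun x y => ⟨fun h => e.injective (Fin.ext h), fun h => by rw [h]⟩
    let G : Subgroup Kˣ := (Units.map (χ : K →* H)).ker
    have hG : ∀ g : Kˣ, g ∈ G ↔ χ (g : K) = 1 := by
      intro g
      rw [MonoidHom.mem_ker, Units.ext_iff]
      rfl
    refine ⟨K, inst, hinf, G, fun a => (e (χ a) : ℕ), fun a => (e (χ a)).2, ?_, ?_, ?_, ?_⟩
    · intro i hi
      obtain ⟨a, ha⟩ := hs (e.symm ⟨i, hi⟩)
      exact ⟨a, by
        change (e (χ a) : ℕ) = i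
        rw [ha, e.apply_symm_apply]⟩
    · intro a b
      rw [hinj]
      constructor
      · intro hab
        by_cases hb : b = 0
        · subst hb
          rw [map_zero, map_eq_zero] at hab
          exact Or.inl ⟨hab, rfl⟩
        · have ha : a ≠ 0 := by
            rintro rfl
            rw [map_zero] at hab
            exact hb ((map_eq_zero χ).mp hab.symm)
          refine Or.inr ⟨ha, hb, ?_⟩
          rw [hG, Units.val_div_eq_div_val, Units.val_mk0, Units.val_mk0, map_div₀, hab]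
          exact div_self ((map_ne_zero χ).mpr hb)
      · rintro (⟨rfl, rfl⟩ | ⟨ha, hb, hab⟩)
        · rfl
        · rw [hG, Units.val_div_eq_div_val, Units.val_mk0, Units.val_mk0, map_div₀,
            div_eq_one_iff_eq ((map_ne_zero χ).mpr hb)] at hab
          exact hab
    · intro a b
      change (e (χ (a * b)) : ℕ) = ((tableOf e).2.1.getD (e (χ a)) []).getD (e (χ b)) 0
      rw [map_mul, tableOf_mul]
    · intro a b z hz
      have hz' : z = (e (e.symm ⟨z, hz⟩) : ℕ) := by rw [e.apply_symm_apply]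
      rw [hz', tableOf_add, ha]
      simp only [hinj]

/-! ### The field `ℚ(x_1, ..., x_m)` -/

open HypQ in
/-- Data realised by an infinite field of characteristic `c` are realised by `F_c(x_1, ..., x_m)`
for all `m ≥ |A|²`. -/
theorem real_univ_bound {A : Type} [CommGroup A] [Finite A] {c : ℕ} {α : (ZMod c)ˣ →* A}
    {H : Subgroup A} {N : Set (A × A)} (h : HypQ.Real c A α H N) {m : ℕ}
    (hm : Nat.card A ^ 2 ≤ m) : HypQ.RealU c m A α H N := by
  classical
  have ht := tame_subset_of_real h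
  obtain ⟨K, _, _, _, χ, hN, hH, hα⟩ := h
  have hε := isPrimeRes_neg_one hα
  rw [← hN, ← hH] at ht
  have hch : ∀ p : A × A, ∃ s : K, p ∈ N → χ s = p.1 ∧ χ (1 - s) = p.2 := by
    intro p
    by_cases hp : p ∈ N
    · rw [← hN] at hp
      obtain ⟨s, t, hst, h1, h2⟩ := (mem_NN_field χ p.1 p.2).mp hp
      refine ⟨s, fun _ => ⟨h1, ?_⟩⟩
      rw [← hst, add_sub_cancel_left, h2]
    · exact ⟨0, fun h => absurd h hp⟩
  choose s hst using hch
  have := Fintype.ofFinite A
  let S : Finset K := Finset.univ.image s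
  have hS : S.card ≤ m := by
    refine le_trans Finset.card_image_le (le_trans (le_of_eq ?_) hm)
    rw [Finset.card_univ, Fintype.card_prod, Nat.card_eq_fintype_card, sq]
  obtain ⟨k, hk⟩ : ∃ k : Fin m → K, ∀ x ∈ S, ∃ i, k i = x := by
    refine ⟨fun i => if h : (i : ℕ) < S.card then (S.equivFin.symm ⟨i, h⟩ : K) else 0, ?_⟩
    intro x hx
    let i := S.equivFin ⟨x, hx⟩
    refine ⟨⟨i, lt_of_lt_of_le i.2 hS⟩, ?_⟩
    simp [i]
  obtain ⟨ψ, p1, p2, p3, p4⟩ := point_char χ (α (-1)) hε ht m k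
  let ι : UP c m →+* MvPolynomial (Fin m) K := MvPolynomial.map (ZMod.castHom (dvd_refl c) K)
  have hι : Function.Injective ι := MvPolynomial.map_injective _ (ZMod.castHom_injective K)
  let ψU : UP c m →*₀ WithZero A := ψ.comp ι.toMonoidWithZeroHom
  have hψU : ∀ a, ψU a = ψ (ι a) := fun a => rfl
  have hNV : NV ψU := fun a ha => by
    rw [hψU]; exact p1 _ ((map_ne_zero_iff ι hι).2 ha)
  have hιX : ∀ i, ι (MvPolynomial.X i) = MvPolynomial.X i := fun i => MvPolynomial.map_X _ i
  have hX : ∀ i, k i ≠ 0 → ψU (MvPolynomial.X i) = χ (k i) := by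
    intro i hi
    rw [hψU, hιX, p2 _ (by rw [MvPolynomial.eval_X]; exact hi), MvPolynomial.eval_X]
  have hX' : ∀ i, 1 - k i ≠ 0 → ψU (1 - MvPolynomial.X i) = χ (1 - k i) := by
    intro i hi
    have h6 : MvPolynomial.eval k (ι (1 - MvPolynomial.X i)) = 1 - k i := by
      rw [map_sub, map_one, hιX, map_sub, map_one, MvPolynomial.eval_X]
    rw [hψU, p2 _ (by rw [h6]; exact hi), h6]
  refine ⟨ψU, hNV, ?_, ?_, ?_⟩
  · apply le_antisymm
    · rintro ⟨x, y⟩ ⟨a, b, d, hd, habd, hx, hy⟩
      rw [← hN, ← p4]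
      exact ⟨ι a, ι b, ι d, (map_ne_zero_iff ι hι).2 hd, by rw [← map_add, habd], hx, hy⟩
    · intro p hp
      obtain ⟨e1, e2⟩ := hst p hp
      obtain ⟨i, hi⟩ := hk (s p) (by simp [S])
      have hs0 : k i ≠ 0 := by rw [hi]; exact ne_zero_of_coe χ e1
      have ht0 : 1 - k i ≠ 0 := by rw [hi]; exact ne_zero_of_coe χ e2
      refine ⟨MvPolynomial.X i, 1 - MvPolynomial.X i, 1, ?_, by ring, ?_, ?_⟩
      · intro h0
        apply one_ne_zero (α := MvPolynomial (Fin m) K)
        rw [← map_one ι, h0, map_zero]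
      · rw [map_one, mul_one, hX i hs0, hi, e1]
      · rw [map_one, mul_one, hX' i ht0, hi, e2]
  · apply le_antisymm
    · conv_lhs => unfold HH
      rw [Subgroup.closure_le]
      rintro x ⟨a, ha⟩
      rw [← hH, ← p3]
      exact Subgroup.subset_closure ⟨ι a, ha⟩
    · intro x hx
      have hx1 : (x, (1 : A)) ∈ N := by
        rw [← hN]
        exact ht ⟨x, by rw [hH]; exact hx, Or.inl rfl⟩
      obtain ⟨e1, e2⟩ := hst (x, 1) hx1
      obtain ⟨i, hi⟩ := hk (s (x, 1)) (by simp [S])
      have hs0 : k i ≠ 0 := by rw [hi]; exact ne_zero_of_coe χ e1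
      refine Subgroup.subset_closure ⟨MvPolynomial.X i, ?_⟩
      rw [hX i hs0, hi, e1]
  · intro j u
    have h5 : MvPolynomial.eval k (ι (j (u : ZMod c))) ≠ 0 := by
      have : IsUnit (((MvPolynomial.eval k).comp (ι.comp j)) (u : ZMod c)) :=
        u.isUnit.map ((MvPolynomial.eval k).comp (ι.comp j))
      exact this.ne_zero
    rw [hψU, p2 _ h5]
    exact hα ((MvPolynomial.eval k).comp (ι.comp j)) u

/-- Two fields with surjective characters to the same group with the same pair sets and the same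
value at `-1` present the same hyperfield. -/
theorem pres_transfer {K : Type} [Field K] {G : Subgroup Kˣ} {L : Type} [Field L]
    (χ : L →*₀ WithZero (Kˣ ⧸ G)) (hs : Function.Surjective χ)
    (hN : HypQ.NN χ = HypQ.NN (clsHom G : K →*₀ WithZero (Kˣ ⧸ G))) {ε : Kˣ ⧸ G}
    (h1 : χ (-1) = (ε : WithZero (Kˣ ⧸ G)))
    (h2 : (clsHom G : K →*₀ WithZero (Kˣ ⧸ G)) (-1) = (ε : WithZero (Kˣ ⧸ G))) :
    IsQuotientOf (QuotientHyperfield K G) L := by
  have hs' : Function.Surjective (clsHom G : K →*₀ WithZero (Kˣ ⧸ G)) := cls_surjective G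
  refine isQuotientOf_of_pres (H := QuotientHyperfield K G) (K := L) (χ := χ) ⟨hs, ?_⟩
  intro x y z
  rw [mem_hadd]
  refine Iff.trans ?_ ((HypQ.hSum_iff χ hs ε h1 x y z))
  rw [hN]
  exact (HypQ.hSum_iff (clsHom G : K →*₀ WithZero (Kˣ ⧸ G)) hs' ε h2 x y z).symm

theorem Isomorphic.trans {H₁ : Type u} {H₂ : Type v} {H₃ : Type w} [Hyperfield H₁] [Hyperfield H₂]
    [Hyperfield H₃] (h : Isomorphic H₁ H₂) (h' : Isomorphic H₂ H₃) : Isomorphic H₁ H₃ := by
  obtain ⟨e, em, ea⟩ := h
  obtain ⟨f, fm, fa⟩ := h'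
  refine ⟨e.trans f, fun x y => by simp [em, fm], fun x y => ?_⟩
  rw [Equiv.coe_trans, Set.image_comp, ea, fa]
  rfl

open HypQ in
/-- The pair set of a surjective character of an infinite field is that of a character of
`ℚ(x_1, ..., x_m)`. -/
theorem exists_char_rat {A : Type} [CommGroup A] [Finite A] {K : Type} [Field K] [Infinite K]
    (χK : K →*₀ WithZero A) (hsK : Function.Surjective χK) {m : ℕ} (hm : Nat.card A ^ 2 ≤ m) :
    ∃ (χL : FractionRing (MvPolynomial (Fin m) ℤ) →*₀ WithZero A) (ε : A),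
      Function.Surjective χL ∧ NN χL = NN χK ∧ χL (-1) = (ε : WithZero A) ∧
      χK (-1) = (ε : WithZero A) := by
  have hHH : HH χK = ⊤ := by
    rw [eq_top_iff]
    intro x _
    exact (mem_HH_field χK x).mpr (hsK _)
  obtain ⟨α₀, hα₀⟩ := exists_primeRes 0 χK
  have hε₀ : χK (-1) = (α₀ (-1) : WithZero A) :=
    primeRes_neg_one (c := 0) (Int.castRingHom K : ZMod 0 →+* K) hα₀
  have hR : HypQ.Real 0 A α₀ ⊤ (NN χK) := by
    obtain ⟨q, hq⟩ := CharP.exists K
    rcases (CharP.char_is_prime_or_zero K q).symm with h0 | hp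
    · subst h0
      exact ⟨K, inferInstance, hq, inferInstance, χK, rfl, hHH, hα₀⟩
    · obtain ⟨α, hα⟩ := exists_primeRes q χK
      have hε : χK (-1) = (α (-1) : WithZero A) :=
        primeRes_neg_one (ZMod.castHom (dvd_refl q) K) hα
      have hR : HypQ.Real q A α ⊤ (NN χK) :=
        ⟨K, inferInstance, hq, inferInstance, χK, rfl, hHH, hα⟩
      exact real_red hp (WithZero.coe_inj.mp (hε₀.symm.trans hε)) hR
  obtain ⟨ψ, hNV, hN, hH, hres⟩ := real_univ_bound hR (m := m) hm
  obtain ⟨χL, h1, h2, h3⟩ := frac_char (P := MvPolynomial (Fin m) ℤ) ψ hNV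
  refine ⟨χL, α₀ (-1), ?_, h2.trans hN, ?_, hε₀⟩
  · intro y
    by_cases hy : y = 0
    · exact ⟨0, by rw [map_zero, hy]⟩
    · obtain ⟨q, rfl⟩ := WithZero.ne_zero_iff_exists.mp hy
      have h6 : HH χL = ⊤ := h3.trans hH
      have : q ∈ HH χL := by rw [h6]; trivial
      exact (mem_HH_field χL q).mp this
  · have h4 := h1 (-1)
    rw [map_neg, map_one] at h4
    rw [h4]
    have h5 : ψ (-1 : UP 0 m) = (α₀ (-1) : WithZero A) := by
      simpa using hres (MvPolynomial.C) (-1)
    exact h5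

theorem quotient_rat {H : Type u} [Hyperfield H] [Finite H] {m : ℕ}
    (hm : (Nat.card H - 1) ^ 2 ≤ m) {K : Type} [Field K] [Infinite K] {χ : K →*₀ H}
    (hχ : Pres χ) : IsQuotientOf H (FractionRing (MvPolynomial (Fin m) ℤ)) := by
  obtain ⟨G, hG⟩ := isQuotientOf_of_pres hχ
  obtain ⟨e, -⟩ := id hG
  have h1 : Nat.card H = Nat.card (Option (Kˣ ⧸ G)) := Nat.card_congr e
  have h2 : Finite (Option (Kˣ ⧸ G)) := Finite.of_equiv H e
  have h3 : Finite (Kˣ ⧸ G) := Finite.of_injective (some : Kˣ ⧸ G → Option (Kˣ ⧸ G))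
    (Option.some_injective _)
  have hcard : Nat.card (Kˣ ⧸ G) = Nat.card H - 1 := by
    rw [h1, Finite.card_option]
    rfl
  obtain ⟨χL, ε, hs, hN, hε, hε'⟩ := exists_char_rat (A := Kˣ ⧸ G) (clsHom G)
    (cls_surjective G) (m := m) (by rw [hcard]; exact hm)
  obtain ⟨G', hG'⟩ := pres_transfer χL hs hN hε hε'
  exact ⟨G', hG.trans hG'⟩

/-- Main theorem. -/
theorem result :
    ∃ f : Table → Bool, Computable f ∧
      ∀ (H : Type u) [Hyperfield H] (n : ℕ) (e : H ≃ Fin n),
        (f (tableOf e) = true ↔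
          ∃ (K : Type v) (_ : Field K), Infinite K ∧ IsQuotientOf H K) ∧
        ∀ m : ℕ, (n - 1) ^ 2 ≤ m →
          (f (tableOf e) = true ↔ IsQuotientOf H (FractionRing (MvPolynomial (Fin m) ℤ))) := by
  obtain ⟨hdec, hf⟩ : ComputablePred HypQ.CoRe.Real :=
    HypQ.CoRe.computable_of_re (HypQ.re_tabOK.of_eq (fun c => (HypQ.real_iff_tabOK c).symm))
  refine ⟨fun c => decide (HypQ.CoRe.Real c), hf, ?_⟩
  intro H _ n e
  have hfin : Finite H := Finite.of_equiv _ e.symm
  have hcard : Nat.card H = n := by rw [Nat.card_congr e, Nat.card_fin]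
  have h0 : decide (HypQ.CoRe.Real (tableOf e)) = true ↔
      ∃ (K : Type) (_ : Field K) (_ : Infinite K) (χ : K →*₀ H), Pres χ := by
    rw [decide_eq_true_iff, real_tableOf_iff]
  refine ⟨?_, ?_⟩
  · rw [h0]
    constructor
    · rintro ⟨K, _, _, χ, hχ⟩
      obtain ⟨L, i1, i2, χ', hχ'⟩ := exists_pres_small.{u, 0, v} hχ
      exact ⟨L, i1, i2, isQuotientOf_of_pres hχ'⟩
    · rintro ⟨K, _, _, hK⟩
      obtain ⟨χ, hχ⟩ := exists_pres hK
      exact exists_pres_small.{u, v, 0} hχ
  · intro m hm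
    rw [h0]
    constructor
    · rintro ⟨K, _, _, χ, hχ⟩
      exact quotient_rat (by rw [hcard]; exact hm) hχ
    · intro h
      obtain ⟨χ, hχ⟩ := exists_pres h
      exact ⟨FractionRing (MvPolynomial (Fin m) ℤ), inferInstance, Infinite.of_injective
        (fun k : ℤ => (k : FractionRing (MvPolynomial (Fin m) ℤ))) Int.cast_injective, χ, hχ⟩

end Pool.Agent.Results.MP_9f0b3e_al.DecideQuotient
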